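import Pool.Agent.Y922.KB.Stm

/-!
# The numerical condition (author helper410)
-/

set_option autoImplicit false

open Real

namespace Pool.Agent.Y410.KB

open Pool.Agent.Y922.KB

theorem t_NUM : S_NUM := by
  intro C₁ hC₁
  refine ⟨60 * (2 * C₁ + 20), by positivity, fun ε p hε hε2 hp => ?_⟩
  have ha : (2 : ℝ) ≤ 1 / ε := by
    rw [le_div_iff₀ hε]
    linarith
  have ha0 : (0 : ℝ) < 1 / ε := by positivity
  have h3 : 60 * (2 * C₁ + 20) / ε ^ 3 = 60 * (2 * C₁ + 20) * (1 / ε) ^ 3 := by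
    field_simp
  rw [h3] at hp
  have h4 : (1 : ℝ) ≤ (1 / ε) ^ 3 := one_le_pow₀ (by linarith)
  constructor
  · nlinarith
  · have h5 : (2 * C₁ + 20) * (1 / ε) ≤ p * ε ^ 2 / 60 := by
      have h6 : 60 * (2 * C₁ + 20) * (1 / ε) ^ 3 * ε ^ 2 ≤ p * ε ^ 2 :=
        mul_le_mul_of_nonneg_right hp (by positivity)
      have h7 : 60 * (2 * C₁ + 20) * (1 / ε) ^ 3 * ε ^ 2 = 60 * ((2 * C₁ + 20) * (1 / ε)) := by
        field_simp
      rw [h7] at h6
      linarith
    have h8 : exp (-(p * ε ^ 2 / 60)) ≤ exp (-((2 * C₁ + 20) * (1 / ε))) :=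
      exp_le_exp.2 (by linarith)
    have h9 : 256 / ε ^ 2 ≤ 256 * exp (2 * (1 / ε)) := by
      have h10 : 1 / ε ≤ exp (1 / ε) := by
        have := add_one_le_exp (1 / ε)
        linarith
      have h11 : (1 / ε) ^ 2 ≤ exp (1 / ε) ^ 2 := pow_le_pow_left₀ ha0.le h10 2
      have h12 : exp (1 / ε) ^ 2 = exp (2 * (1 / ε)) := by
        rw [← exp_nat_mul]
        norm_num
      rw [h12] at h11
      have h13 : 256 / ε ^ 2 = 256 * (1 / ε) ^ 2 := by
        field_simp
      rw [h13]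
      linarith
    have h14 : exp (C₁ / ε) ^ 2 = exp (2 * C₁ * (1 / ε)) := by
      rw [← exp_nat_mul]
      congr 1
      push_cast
      ring
    have h15 : exp (-(p * ε ^ 2 / 60)) * (256 / ε ^ 2) ≤
        exp (-((2 * C₁ + 20) * (1 / ε))) * (256 * exp (2 * (1 / ε))) :=
      mul_le_mul h8 h9 (by positivity) (exp_pos _).le
    have h16 : π * (2 * exp 1 * exp (C₁ / ε) ^ 2) * (exp (-(p * ε ^ 2 / 60)) * (256 / ε ^ 2)) ≤
        π * (2 * exp 1 * exp (2 * C₁ * (1 / ε))) *
          (exp (-((2 * C₁ + 20) * (1 / ε))) * (256 * exp (2 * (1 / ε)))) := by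
      rw [h14]
      exact mul_le_mul_of_nonneg_left h15 (by positivity)
    have h17 : π * (2 * exp 1 * exp (2 * C₁ * (1 / ε))) *
          (exp (-((2 * C₁ + 20) * (1 / ε))) * (256 * exp (2 * (1 / ε)))) =
        512 * π * exp 1 * exp (-(18 * (1 / ε))) := by
      have h18 : exp (-(18 * (1 / ε))) = exp (2 * C₁ * (1 / ε)) *
          (exp (-((2 * C₁ + 20) * (1 / ε))) * exp (2 * (1 / ε))) := by
        rw [← exp_add, ← exp_add]
        congr 1
        ring
      rw [h18]
      ring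
    have h19 : exp (-(18 * (1 / ε))) ≤ exp (-36) := exp_le_exp.2 (by linarith)
    have h20 : exp (-36) * 2 ^ 36 ≤ 1 := by
      have h21 : (2 : ℝ) ^ 36 ≤ exp 36 := by
        have h22 : exp 36 = exp 1 ^ 36 := by
          rw [← exp_nat_mul]
          norm_num
        rw [h22]
        exact pow_le_pow_left₀ (by norm_num) (by have := exp_one_gt_d9; linarith) 36
      calc exp (-36) * 2 ^ 36 ≤ exp (-36) * exp 36 :=
            mul_le_mul_of_nonneg_left h21 (exp_pos _).le
        _ = 1 := by rw [← exp_add]; norm_num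
    have h23 : 512 * π * exp 1 ≤ 2 ^ 36 := by
      have h24 : π ≤ 4 := pi_le_four
      have h25 : exp 1 ≤ 3 := by have := exp_one_lt_d9; linarith
      have h26 : 512 * π * exp 1 ≤ 512 * 4 * 3 := by
        have h27 : 512 * π ≤ 512 * 4 := by linarith
        exact mul_le_mul h27 h25 (exp_pos _).le (by norm_num)
      refine h26.trans (by norm_num)
    refine h16.trans ?_
    rw [h17]
    calc 512 * π * exp 1 * exp (-(18 * (1 / ε))) ≤ 2 ^ 36 * exp (-36) :=
          mul_le_mul h23 h19 (exp_pos _).le (by norm_num)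
      _ ≤ 1 := by linarith

end Pool.Agent.Y410.KB
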